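import Pool.Agent.H85.OT.Wron

/-!
# The newform of weight 4 and level 8

`f8 = U V (U² - V²) / 16` with `U = θ₃²`, `V = θ₄²` (so `f8 = η(2τ)^4 η(4τ)^4`), and the number `cyN p`
of points over `𝔽_p` of the affine threefold `w² = x(x-1)(x-z) y(y-1)(y-z) (1-z)`.
-/

open PowerSeries

namespace Pool.Agent.H7.CY

open Pool.Agent.H85.OT

/-- `∑ q^(m²)` over odd `m ≥ 1` -/
noncomputable def s1 : ℤ⟦X⟧ := PowerSeries.mk fun n => if Odd n ∧ IsSquare n then 1 else 0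

/-- `∑ q^(m²)` over even integers `m` -/
noncomputable def t1 : ℤ⟦X⟧ :=
  PowerSeries.mk fun n => if n = 0 then 1 else if Even n ∧ IsSquare n then 2 else 0

/-- the newform of weight 4 and level 8 -/
noncomputable def f8 : ℤ⟦X⟧ := th3 ^ 2 * th4 ^ 2 * (s1 * t1 * dbl ℤ (th3 ^ 2))

theorem th3_sub_th4 : th3 - th4 = 4 * s1 := by
  ext n
  have h4 : (4 : ℤ⟦X⟧) = PowerSeries.C 4 := rfl
  rw [h4, PowerSeries.coeff_C_mul, map_sub, th4, s1, coeff_mk, coeff_mk]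
  rcases Nat.even_or_odd n with h | h
  · rw [h.neg_one_pow, if_neg (fun h2 => (Nat.not_even_iff_odd.mpr h2.1) h)]
    ring
  · rw [h.neg_one_pow, th3, coeff_mk]
    have h0 : n ≠ 0 := by rintro rfl; simp at h
    by_cases hs : IsSquare n
    · simp [h0, hs, h]
    · simp [h0, hs]

theorem th3_add_th4 : th3 + th4 = 2 * t1 := by
  ext n
  have h4 : (2 : ℤ⟦X⟧) = PowerSeries.C 2 := rfl
  rw [h4, PowerSeries.coeff_C_mul, map_add, th4, t1, coeff_mk, coeff_mk]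
  rcases Nat.even_or_odd n with h | h
  · rw [h.neg_one_pow, th3, coeff_mk]
    by_cases h0 : n = 0
    · simp [h0]
    · by_cases hs : IsSquare n
      · simp [h0, hs, h]
      · simp [h0, hs]
  · have h0 : n ≠ 0 := by rintro rfl; simp at h
    rw [h.neg_one_pow, if_neg h0, if_neg (fun h2 => (Nat.not_even_iff_odd.mpr h) h2.1)]
    ring

theorem f8_eq : 16 * f8 = th3 ^ 2 * th4 ^ 2 * (th3 ^ 4 - th4 ^ 4) := by
  have e : th3 ^ 4 - th4 ^ 4 = (th3 - th4) * (th3 + th4) * (th3 ^ 2 + th4 ^ 2) := by ring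
  rw [e, th3_sub_th4, th3_add_th4, ← two_dbl_U, f8]
  ring

/-- `8 f8 = V DU - U DV` -/
theorem f8_wron : 8 * f8 = th4 ^ 2 * Dq ℤ (th3 ^ 2) - th3 ^ 2 * Dq ℤ (th4 ^ 2) := by
  have h := wron
  have h2 : (2 : ℤ⟦X⟧) * (8 * f8) = 2 * (th4 ^ 2 * Dq ℤ (th3 ^ 2) - th3 ^ 2 * Dq ℤ (th4 ^ 2)) := by
    linear_combination f8_eq + h
  have h3 : (2 : ℤ⟦X⟧) ≠ 0 := by
    intro h0
    have h5 : PowerSeries.coeff 0 (PowerSeries.C (2 : ℤ)) = PowerSeries.coeff 0 (0 : ℤ⟦X⟧) :=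
      congrArg (PowerSeries.coeff 0) h0
    rw [PowerSeries.coeff_C, if_pos rfl, map_zero] at h5
    norm_num at h5
  exact mul_left_cancel₀ h3 h2

/-- the number of points over `𝔽_p` of `w² = x(x-1)(x-z) y(y-1)(y-z) (1-z)` -/
noncomputable def cyN (p : ℕ) : ℕ :=
  Nat.card {v : ZMod p × ZMod p × ZMod p × ZMod p //
    v.2.2.2 ^ 2 = v.1 * (v.1 - 1) * (v.1 - v.2.2.1) * (v.2.1 * (v.2.1 - 1) * (v.2.1 - v.2.2.1)) *
      (1 - v.2.2.1)}

end Pool.Agent.H7.CY
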