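import Pool.Agent.H7.CY.QDefs

/-!
# Row CYQ1: the sign `ep` is multiplicative, and the product formula for `Ph`

`sg m = (-1)^m` (`Int.negOnePow`); `sg (m + n) = sg m sg n` (`Int.negOnePow_add`), `sg (m - n) = sg m sg n`,
`sg (m n)` depends on parities only.  Suggested: `sg m = if Even m then 1 else -1`, or work with `m % 2`.

`ep_mul`: put `s x = x.c + x.d` mod 2; `ep x = sg (x.c + x.d)`.  For the product,
`(x y).c + (x y).d = a a'` ... modulo 2 equals `(x.a + x.b)(y.c + y.d) + (x.c + x.d)(y.a + y.b)` (signs do not matter mod 2).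
For odd norm `x.a + x.b + x.c + x.d` is odd (since `m^2 = m` mod 2), so with `s = x.c + x.d`, `t = y.c + y.d` this is
`(1 + s) t + s (1 + t) = s + t` mod 2.  (One way: reduce every coordinate mod 2 by `Int.emod_two_eq_zero_or_one`
or `Int.even_or_odd'`, 256 cases are too many: better prove the identity
`(x*y).c + (x*y).d - ((x.c+x.d) + (y.c+y.d)) = 2 * (..)` after writing `x.a + x.b + x.c + x.d = 2 k + 1`,
`y.a + y.b + y.c + y.d = 2 l + 1`: substitute `x.a = 2k + 1 - x.b - x.c - x.d`, `y.a = 2l + 1 - ..`; the difference is then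
even by `ring_nf`/`omega`-free certificate: exhibit the half explicitly, or use `Int.ModEq`/`ZMod 2` with `ring` and
`CharP.cast_eq_zero`; in `ZMod 2`, `2 = 0`, so `linear_combination (..) * (2 : ZMod 2) = 0` style works.)

`Ph_mul`: with `A = x.a^2 + x.b^2 - x.c^2 - x.d^2` and the same for `y`, `x*y` one has the polynomial identity (`ring`)
`A(xy) = A(x) A(y) - 4 ((x.a x.c + x.b x.d)(y.a y.c - y.b y.d) - (x.b x.c - x.a x.d)(y.a y.d + y.b y.c))`;
multiply by `ep (x*y) = ep x ep y`.
-/

namespace Pool.Agent.H7.CY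

theorem sg_add (m n : ℤ) : sg (m + n) = sg m * sg n := by
  sorry

theorem sg_neg (m : ℤ) : sg (-m) = sg m := by
  sorry

theorem sg_mul_self (m : ℤ) : sg m * sg m = 1 := by
  sorry

theorem ep_mul {x y : LL} (hx : Odd (nm x)) (hy : Odd (nm y)) : ep (x * y) = ep x * ep y := by
  sorry

theorem Ph_mul {x y : LL} (hx : Odd (nm x)) (hy : Odd (nm y)) :
    Ph (x * y) = Ph x * Ph y -
      4 * ((ep x * (x.a * x.c + x.b * x.d)) * (ep y * (y.a * y.c - y.b * y.d)) -
        (ep x * (x.b * x.c - x.a * x.d)) * (ep y * (y.a * y.d + y.b * y.c))) := by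
  sorry

end Pool.Agent.H7.CY
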