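import Pool.Agent.H7.CY.Q1

/-!
# Row CYQ2: the sum of `Ph` over products

`sum_e1`, `sum_e2`: the map `y ↦ ⟨-y.b, y.a, -y.d, y.c⟩` (left multiplication by `i`) is a bijection of `SS n`
(inverse `y ↦ ⟨y.b, -y.a, y.d, -y.c⟩`), keeps `ep` (`sg (-m) = sg m`, commutativity), and changes the sign of
`y.a y.c - y.b y.d` and of `y.a y.d + y.b y.c`:  `(-b)(-d) - a c = -(ac - bd)`, `(-b) c + a (-d) = -(bc + ad)`.
So the sum equals its negative (`Finset.sum_bij'` or `Finset.sum_nbij'`), hence is `0`.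

`sum_Ph_mul`: `Ph_mul` for each pair (`nm x = p`, `nm y = n` odd, `mem_SS`), expand; the double sum of a product
is the product of sums (`Finset.sum_mul_sum`), and the last two terms vanish by `sum_e1`, `sum_e2`.
-/

namespace Pool.Agent.H7.CY

theorem sum_e1 (n : ℕ) : ∑ y ∈ SS n, ep y * (y.a * y.c - y.b * y.d) = 0 := by
  sorry

theorem sum_e2 (n : ℕ) : ∑ y ∈ SS n, ep y * (y.a * y.d + y.b * y.c) = 0 := by
  sorry

theorem sum_Ph_mul {p n : ℕ} (hp : Odd p) (hn : Odd n) :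
    ∑ x ∈ SS p, ∑ y ∈ SS n, Ph (x * y) = (∑ x ∈ SS p, Ph x) * ∑ y ∈ SS n, Ph y := by
  sorry

end Pool.Agent.H7.CY
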