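import Pool.Agent.H7.CY.QDefs

/-!
# Row CYQ3: existence of a divisor of norm `p` (descent as in the four squares theorem)

`x` has norm divisible by the odd prime `p` and is not divisible by `p`.  Let `J π` mean
`∃ lam mu, π = x * lam + sm p mu` (a right ideal: closed under addition, right multiplication, contains `sm p 1`).
All `π` with `J π` have norm divisible by `p`: `nm (x lam + p mu) = nm x nm lam + p (..)`.
Claim: for every `m ≥ 1` (`m < p`) and every `π` with `J π`, `nm π = m p`, there is `π'` with `J π'`, `nm π' = p`.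
Strong induction on `m`.
* `m = 1`: done.
* `m` even: `nm π` is even, so the number of odd coordinates is even, and there is a unit `u` among `i, j, k`
  (`⟨0,1,0,0⟩, ⟨0,0,1,0⟩, ⟨0,0,0,1⟩`) such that all coordinates of `π * (1 + u)` are even
  (`u = i`: `a - b, a + b, c + d, d - c`, so it needs `a ≡ b`, `c ≡ d`;
  `u = j`: `a ≡ c`, `b ≡ d`; `u = k`: `a ≡ d`, `b ≡ c` mod 2; one of the three cases holds because `a + b + c + d` is even).
  Write `π * (1 + u) = sm 2 π'`.  Then `4 nm π' = 2 m p`, so `nm π' = (m/2) p`; and `J π'`: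
  with `p = 2 s + 1`: `π' = sm p π' - sm s (sm 2 π')  = sm p π' - sm s (π (1+u))`, in the right ideal.
* `m` odd, `1 < m < p`: choose `t` with coordinates in `(-m/2, m/2)` and `t ≡ π` mod `m` coordinatewise (`Int.bmod` or
  `Int.emod` shifted): `4 t.a^2 < m^2` etc. so `nm t < m^2`.  `nm t ≡ nm π ≡ 0` mod `m`: `nm t = m m'`, `0 ≤ m' < m`.
  `π * st t ≡ π * st π = nm π ≡ 0` mod `m` coordinatewise, so `π * st t = sm m π'`; norms: `m^2 nm π' = m p * m m'`, so
  `nm π' = m' p`.  `J π'`: `m` is prime to `p` (`0 < m < p`): `1 = α m + β p`, `π' = sm (α m) π' + sm (β p) π' = sm α (π * st t) + sm p (..)`.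
  `m' ≠ 0`: else `nm t = 0`, `t = 0`, all coordinates of `π` are divisible by `m`, so `m^2 ∣ nm π = m p`, `m ∣ p`, impossible
  for `1 < m < p`.
  Apply the induction hypothesis to `m'`.
Start: take `π ≡ x` mod `p` with coordinates in `(-p/2, p/2)` (`π = x * 1 + sm p mu`); `0 < nm π < p^2` (`π ≠ 0` because `p` does not
divide `x`), `p ∣ nm π`.
-/

namespace Pool.Agent.H7.CY

theorem exists_pi {p : ℕ} (hp : p.Prime) (h2 : p ≠ 2) {x : LL} (h : (p : ℤ) ∣ nm x)
    (h' : ¬ dvdC p x) : ∃ π lam mu : LL, nm π = p ∧ π = x * lam + sm p mu := by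
  sorry

end Pool.Agent.H7.CY
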