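import Pool.Agent.H7.CY.Q3

/-!
# Row CYQ4: the elements of norm `p` dividing `x` on the left

Algebra of `LL` (file QDefs): `ll_assoc`, `st_mul`, `sm_mul`, `mul_sm`, `mul_st_self : x * st x = sm (nm x) 1`, `nm_mul`, `unit_mul`.

`uniq_pi`: `st π' * π = st π' * x * lam + sm p (st π' * mu) = sm p w` for some `w` (by `h'`).  Norms: `p^2 = p^2 nm w`, so
`nm w = 1`.  `π' * (st π' * π) = sm p π` and `= π' * sm p w = sm p (π' * w)`, so `π = π' * w` (`sm_inj`), `π' = π * st w`.

`card_units`: `SS 1` has 8 elements: `nm x = 1` forces exactly one coordinate `±1` and the others `0` (coordinates are in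
`{-1,0,1}`: show `SS 1 = {⟨1,0,0,0⟩, ⟨-1,0,0,0⟩, ..}` by `ext`, bounds and case analysis, then `decide`/`rfl` for the card;
`LL` has decidable equality).

`dvd_of_pi`: from `π = x * lam + sm p mu` and `p ∣ nm x`: `st π * x = st lam * (st x * x) + sm p (st mu * x)
= sm p (..)` (`st_mul_self`, `sm_sm`).

`count_pi`: take `π` from `exists_pi`; the set is the image of `SS 1` under `u ↦ π * u`, injective
(`st π * (π * u) = sm p u`).  `⊇`: `st (π u) * x = st u * (st π * x)`; `⊆`: `uniq_pi`.
-/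

namespace Pool.Agent.H7.CY

theorem uniq_pi {p : ℕ} (hp : p.Prime) {x π π' lam mu : LL} (hπ : nm π = p) (hπ' : nm π' = p)
    (h : π = x * lam + sm p mu) (h' : dvdC p (st π' * x)) : ∃ u ∈ SS 1, π' = π * u := by
  sorry

theorem card_units : (SS 1).card = 8 := by
  sorry

theorem dvd_of_pi {p : ℕ} {x π lam mu : LL} (hx : (p : ℤ) ∣ nm x)
    (h : π = x * lam + sm p mu) : dvdC p (st π * x) := by
  sorry

open Classical in
theorem count_pi {p : ℕ} (hp : p.Prime) (h2 : p ≠ 2) {x : LL} (h : (p : ℤ) ∣ nm x)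
    (h' : ¬ dvdC p x) : ((SS p).filter fun π => dvdC p (st π * x)).card = 8 := by
  sorry

end Pool.Agent.H7.CY
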