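import Pool.Agent.H7.CY.Q4

/-!
# Row CYQ5: sums over products of quaternions of norms `p` and `n`

For `z` with `nm z = p n` the number of pairs `(x, y)`, `nm x = p`, `nm y = n`, `x * y = z` is
* `8` if `p` does not divide `z`: the projection `(x, y) ↦ x` is a bijection onto `{x ∈ SS p : dvdC p (st x * z)}`:
  `x * y = z` gives `st x * z = sm p y`; conversely `st x * z = sm p y` gives `sm p (x * y) = x * (st x * z) = sm p z`, so
  `x * y = z`, and `nm y = n` from `p nm y = p n` (`p ≠ 0`).  Then `count_pi` (`p ∣ nm z`).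
* `(SS p).card` if `z = sm p z'`: for every `x ∈ SS p` exactly one `y`, namely `y = st x * z'` (`x * y = sm p z' = z`; norm
  `p nm z' = n` because `p^2 nm z' = p n`; uniqueness as before: `sm p y = st x * z`).
Then `∑_x ∑_y F (x y) = ∑_(z ∈ SS (p n)) F z * #{(x, y) : x y = z}` (`Finset.sum_product'`, `Finset.sum_fiberwise_of_maps_to`
with `nm (x y) = p n`), which gives `sum_pairs`.

`sum_div`: the elements of `SS (p n)` divisible by `p` are `sm p z'` with `p^2 nm z' = p n`, so `p nm z' = n`: none if `p` does not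
divide `n`, otherwise `z' ∈ SS (n / p)`; `sm p` is injective (`Finset.sum_bij'`/`Finset.sum_image`).
-/

namespace Pool.Agent.H7.CY

open Classical in
theorem sum_pairs {p n : ℕ} (hp : p.Prime) (h2 : p ≠ 2) (F : LL → ℤ) :
    ∑ x ∈ SS p, ∑ y ∈ SS n, F (x * y) =
      8 * ∑ z ∈ SS (p * n), F z +
        (((SS p).card : ℤ) - 8) * ∑ z ∈ (SS (p * n)).filter (fun z => dvdC p z), F z := by
  sorry

open Classical in
theorem sum_div {p n : ℕ} (hp : p.Prime) (F : LL → ℤ) :
    ∑ z ∈ (SS (p * n)).filter (fun z => dvdC p z), F z =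
      if p ∣ n then ∑ z ∈ SS (n / p), F (sm p z) else 0 := by
  sorry

end Pool.Agent.H7.CY
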