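import Pool.Agent.H7.CY.Q4

/-!
# Row CYQ6: `r_4(p) ≡ 8 mod p`

Double counting over `W = (ZMod p)^4` (e.g. `ZMod p × ZMod p × ZMod p × ZMod p` or `Fin 4 → ZMod p`).  For `x : LL` let `[x] ∈ W` be its
reduction; the condition `dvdC p (st π * x)` depends only on `[x]` (it is bilinear in the coordinates).  Let
`R = {(π, w) : π ∈ SS p, w ∈ W, w ≠ 0, st π * w = 0 in W}`.
(a) For fixed `π ∈ SS p` the set `K = {w ∈ W : st π * w = 0}` is an additive subgroup of `W` (`AddSubgroup`), so its cardinality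
divides `p^4`; it is not trivial, because it contains `[π]` (`st π * π = sm p 1`), which is `≠ 0` (`nm π = p < p^2`, so `p` does not divide
`π`: `nm_sm`).  So `p ∣ #K` and the number of `w ≠ 0` in `K` is `≡ -1` mod `p`.  Hence `#R ≡ - #(SS p)` mod `p`.
(b) For fixed `w ≠ 0`, lift it to `x : LL` (coordinates `ZMod.val`), `¬ dvdC p x`.  If `p ∣ nm x` (i.e. `w` is isotropic) the number of `π`
is `8` (`count_pi`).  If `p` does not divide `nm x` there is no `π`: `st π * x = sm p y` gives
`st π * (x * st x) = sm (nm x) (st π) = sm p (y * st x)`, so `p` divides all coordinates of `st π` times `nm x`, so divides `π`,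
impossible as in (a).  So `#R = 8 #{w ≠ 0 : w_1^2 + w_2^2 + w_3^2 + w_4^2 = 0}`.
(c) Chevalley-Warning: the number of `w ∈ W` with `w_1^2 + .. + w_4^2 = 0` is divisible by `p`
(`char_dvd_card_solutions` for the polynomial `∑ X_i^2` in `MvPolynomial (Fin 4) (ZMod p)`, degree `2 < 4`), so the number of
nonzero ones is `≡ -1`.  Hence `#R ≡ -8`.
Together `#(SS p) ≡ 8` mod `p`.
-/

namespace Pool.Agent.H7.CY

theorem card_SS_mod {p : ℕ} (hp : p.Prime) (h2 : p ≠ 2) :
    (p : ℤ) ∣ ((SS p).card : ℤ) - 8 := by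
  sorry

end Pool.Agent.H7.CY
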