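import Mathlib

/-!
# Integral quaternions (project CY, Hecke relation of the newform of level 8)

`LL` = quaternions `a + b i + c j + d k` with integer coordinates (own structure, plain operations),
`st` = conjugate, `nm` = norm, `SS n` = the finite set of those of norm `n`,
`sg m = (-1)^m`, `ep x = (-1)^(c+d)`, `Ph x = (-1)^(c+d) (a² + b² - c² - d²)`, `sm m x = m x`,
`dvdC m x`: all coordinates are divisible by `m`.
-/

namespace Pool.Agent.H7.CY

/-- quaternions with integer coordinates -/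
@[ext]
structure LL where
  a : ℤ
  b : ℤ
  c : ℤ
  d : ℤ
deriving DecidableEq

namespace LL

instance : Mul LL := ⟨fun x y =>
  ⟨x.a * y.a - x.b * y.b - x.c * y.c - x.d * y.d,
    x.a * y.b + x.b * y.a + x.c * y.d - x.d * y.c,
    x.a * y.c - x.b * y.d + x.c * y.a + x.d * y.b,
    x.a * y.d + x.b * y.c - x.c * y.b + x.d * y.a⟩⟩

instance : One LL := ⟨⟨1, 0, 0, 0⟩⟩

instance : Zero LL := ⟨⟨0, 0, 0, 0⟩⟩

instance : Add LL := ⟨fun x y => ⟨x.a + y.a, x.b + y.b, x.c + y.c, x.d + y.d⟩⟩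

instance : Sub LL := ⟨fun x y => ⟨x.a - y.a, x.b - y.b, x.c - y.c, x.d - y.d⟩⟩

end LL

theorem mul_a (x y : LL) : (x * y).a = x.a * y.a - x.b * y.b - x.c * y.c - x.d * y.d := rfl
theorem mul_b (x y : LL) : (x * y).b = x.a * y.b + x.b * y.a + x.c * y.d - x.d * y.c := rfl
theorem mul_c (x y : LL) : (x * y).c = x.a * y.c - x.b * y.d + x.c * y.a + x.d * y.b := rfl
theorem mul_d (x y : LL) : (x * y).d = x.a * y.d + x.b * y.c - x.c * y.b + x.d * y.a := rfl
theorem add_a (x y : LL) : (x + y).a = x.a + y.a := rfl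
theorem add_b (x y : LL) : (x + y).b = x.b + y.b := rfl
theorem add_c (x y : LL) : (x + y).c = x.c + y.c := rfl
theorem add_d (x y : LL) : (x + y).d = x.d + y.d := rfl
theorem sub_a (x y : LL) : (x - y).a = x.a - y.a := rfl
theorem sub_b (x y : LL) : (x - y).b = x.b - y.b := rfl
theorem sub_c (x y : LL) : (x - y).c = x.c - y.c := rfl
theorem sub_d (x y : LL) : (x - y).d = x.d - y.d := rfl
theorem one_a : (1 : LL).a = 1 := rfl
theorem one_b : (1 : LL).b = 0 := rfl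
theorem one_c : (1 : LL).c = 0 := rfl
theorem one_d : (1 : LL).d = 0 := rfl
theorem zero_a : (0 : LL).a = 0 := rfl
theorem zero_b : (0 : LL).b = 0 := rfl
theorem zero_c : (0 : LL).c = 0 := rfl
theorem zero_d : (0 : LL).d = 0 := rfl

/-- conjugate -/
def st (x : LL) : LL := ⟨x.a, -x.b, -x.c, -x.d⟩

/-- norm -/
def nm (x : LL) : ℤ := x.a ^ 2 + x.b ^ 2 + x.c ^ 2 + x.d ^ 2

/-- multiplication by an integer -/
def sm (m : ℤ) (y : LL) : LL := ⟨m * y.a, m * y.b, m * y.c, m * y.d⟩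

/-- all coordinates are divisible by `m` -/
def dvdC (m : ℤ) (x : LL) : Prop := ∃ y : LL, x = sm m y

/-- the sign `(-1)^m` -/
noncomputable def sg (m : ℤ) : ℤ := ((m.negOnePow : ℤˣ) : ℤ)

/-- `(-1)^(c+d)` -/
noncomputable def ep (x : LL) : ℤ := sg x.c * sg x.d

/-- `(-1)^(c+d) (a² + b² - c² - d²)` -/
noncomputable def Ph (x : LL) : ℤ := ep x * (x.a ^ 2 + x.b ^ 2 - x.c ^ 2 - x.d ^ 2)

theorem SS_finite (n : ℕ) : {x : LL | nm x = (n : ℤ)}.Finite := by
  have hf : (Set.Icc (-(n : ℤ)) n ×ˢ Set.Icc (-(n : ℤ)) n ×ˢ Set.Icc (-(n : ℤ)) n ×ˢ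
      Set.Icc (-(n : ℤ)) n).Finite :=
    (Set.finite_Icc _ _).prod ((Set.finite_Icc _ _).prod ((Set.finite_Icc _ _).prod
      (Set.finite_Icc _ _)))
  refine Set.Finite.subset
    (hf.image fun v : ℤ × ℤ × ℤ × ℤ => (⟨v.1, v.2.1, v.2.2.1, v.2.2.2⟩ : LL)) ?_
  intro x hx0
  have hx : nm x = (n : ℤ) := hx0
  unfold nm at hx
  have key : ∀ m : ℤ, m ^ 2 ≤ n → m ∈ Set.Icc (-(n : ℤ)) n := by
    intro m hm
    have h1 := Int.le_self_sq m
    have h2 := Int.le_self_sq (-m)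
    rw [neg_sq] at h2
    constructor <;> linarith
  refine ⟨(x.a, x.b, x.c, x.d), ⟨key _ ?_, key _ ?_, key _ ?_, key _ ?_⟩, rfl⟩ <;>
    nlinarith [sq_nonneg x.a, sq_nonneg x.b, sq_nonneg x.c, sq_nonneg x.d]

/-- the integral quaternions of norm `n` -/
noncomputable def SS (n : ℕ) : Finset LL := (SS_finite n).toFinset

theorem mem_SS {n : ℕ} {x : LL} : x ∈ SS n ↔ nm x = (n : ℤ) := by
  rw [SS, Set.Finite.mem_toFinset]
  exact Iff.rfl

theorem dvdC_iff {m : ℤ} {x : LL} : dvdC m x ↔ m ∣ x.a ∧ m ∣ x.b ∧ m ∣ x.c ∧ m ∣ x.d := by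
  constructor
  · rintro ⟨y, rfl⟩
    exact ⟨⟨_, rfl⟩, ⟨_, rfl⟩, ⟨_, rfl⟩, ⟨_, rfl⟩⟩
  · rintro ⟨⟨a, ha⟩, ⟨b, hb⟩, ⟨c, hc⟩, ⟨d, hd⟩⟩
    exact ⟨⟨a, b, c, d⟩, LL.ext ha hb hc hd⟩

theorem ll_assoc (x y z : LL) : x * y * z = x * (y * z) := by
  apply LL.ext <;> simp only [mul_a, mul_b, mul_c, mul_d] <;> ring

theorem ll_one_mul (x : LL) : 1 * x = x := by
  apply LL.ext <;> simp only [mul_a, mul_b, mul_c, mul_d, one_a, one_b, one_c, one_d] <;> ring

theorem ll_mul_one (x : LL) : x * 1 = x := by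
  apply LL.ext <;> simp only [mul_a, mul_b, mul_c, mul_d, one_a, one_b, one_c, one_d] <;> ring

theorem ll_mul_add (x y z : LL) : x * (y + z) = x * y + x * z := by
  apply LL.ext <;> simp only [mul_a, mul_b, mul_c, mul_d, add_a, add_b, add_c, add_d] <;> ring

theorem ll_add_mul (x y z : LL) : (x + y) * z = x * z + y * z := by
  apply LL.ext <;> simp only [mul_a, mul_b, mul_c, mul_d, add_a, add_b, add_c, add_d] <;> ring

theorem st_mul (x y : LL) : st (x * y) = st y * st x := by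
  apply LL.ext <;> simp only [mul_a, mul_b, mul_c, mul_d, st] <;> ring

theorem st_add (x y : LL) : st (x + y) = st x + st y := by
  apply LL.ext <;> simp only [add_a, add_b, add_c, add_d, st] <;> ring

theorem st_st (x : LL) : st (st x) = x := by
  apply LL.ext <;> simp only [st] <;> ring

theorem sm_mul (m : ℤ) (y z : LL) : sm m y * z = sm m (y * z) := by
  apply LL.ext <;> simp only [mul_a, mul_b, mul_c, mul_d, sm] <;> ring

theorem mul_sm (m : ℤ) (y z : LL) : y * sm m z = sm m (y * z) := by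
  apply LL.ext <;> simp only [mul_a, mul_b, mul_c, mul_d, sm] <;> ring

theorem sm_add (m : ℤ) (y z : LL) : sm m (y + z) = sm m y + sm m z := by
  apply LL.ext <;> simp only [add_a, add_b, add_c, add_d, sm] <;> ring

theorem sm_sm (m k : ℤ) (y : LL) : sm m (sm k y) = sm (m * k) y := by
  apply LL.ext <;> simp only [sm] <;> ring

theorem sm_one (x : LL) : sm 1 x = x := by
  apply LL.ext <;> simp only [sm] <;> ring

theorem st_sm (m : ℤ) (y : LL) : st (sm m y) = sm m (st y) := by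
  apply LL.ext <;> simp only [sm, st] <;> ring

theorem sm_inj {m : ℤ} (hm : m ≠ 0) {y z : LL} (h : sm m y = sm m z) : y = z := by
  apply LL.ext
  · exact mul_left_cancel₀ hm (congrArg LL.a h)
  · exact mul_left_cancel₀ hm (congrArg LL.b h)
  · exact mul_left_cancel₀ hm (congrArg LL.c h)
  · exact mul_left_cancel₀ hm (congrArg LL.d h)

theorem nm_sm (m : ℤ) (y : LL) : nm (sm m y) = m ^ 2 * nm y := by
  simp only [nm, sm]
  ring

theorem nm_mul (x y : LL) : nm (x * y) = nm x * nm y := by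
  simp only [nm, mul_a, mul_b, mul_c, mul_d]
  ring

theorem nm_st (x : LL) : nm (st x) = nm x := by
  simp only [nm, st]
  ring

theorem nm_nonneg (x : LL) : 0 ≤ nm x := by
  unfold nm
  positivity

theorem mul_st_self (x : LL) : x * st x = sm (nm x) 1 := by
  apply LL.ext <;> simp only [mul_a, mul_b, mul_c, mul_d, sm, st, nm, one_a, one_b, one_c, one_d] <;>
    ring

theorem st_mul_self (x : LL) : st x * x = sm (nm x) 1 := by
  apply LL.ext <;> simp only [mul_a, mul_b, mul_c, mul_d, sm, st, nm, one_a, one_b, one_c, one_d] <;>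
    ring

theorem eq_zero_of_nm {x : LL} (h : nm x = 0) : x = 0 := by
  unfold nm at h
  have ha : x.a ^ 2 = 0 := by nlinarith [sq_nonneg x.a, sq_nonneg x.b, sq_nonneg x.c, sq_nonneg x.d]
  have hb : x.b ^ 2 = 0 := by nlinarith [sq_nonneg x.a, sq_nonneg x.b, sq_nonneg x.c, sq_nonneg x.d]
  have hc : x.c ^ 2 = 0 := by nlinarith [sq_nonneg x.a, sq_nonneg x.b, sq_nonneg x.c, sq_nonneg x.d]
  have hd : x.d ^ 2 = 0 := by nlinarith [sq_nonneg x.a, sq_nonneg x.b, sq_nonneg x.c, sq_nonneg x.d]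
  exact LL.ext (pow_eq_zero_iff two_ne_zero |>.mp ha) (pow_eq_zero_iff two_ne_zero |>.mp hb)
    (pow_eq_zero_iff two_ne_zero |>.mp hc) (pow_eq_zero_iff two_ne_zero |>.mp hd)

/-- a unit: `st u` is its inverse -/
theorem unit_mul {u : LL} (h : u ∈ SS 1) : u * st u = 1 ∧ st u * u = 1 := by
  rw [mem_SS] at h
  rw [mul_st_self, st_mul_self, h]
  exact ⟨sm_one 1, sm_one 1⟩

theorem unit_st {u : LL} (h : u ∈ SS 1) : st u ∈ SS 1 := by
  rw [mem_SS] at h ⊢
  rw [nm_st, h]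

end Pool.Agent.H7.CY
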