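import Pool.Agent.H7.CY.Defs
import Pool.Agent.H7.CY.QDefs

/-!
# Row CYQ7: the coefficients of `f8` in terms of quaternions

`f8_wron : 8 * f8 = th4^2 * D(th3^2) - th3^2 * D(th4^2)`.  With `pow_two` and file `H85/OT/Dup.lean`:
`coeff N (th3 * th3) = ∑ p ∈ Dup_P N, 1 * 1` (`Dup_coeff_mul Dup_th3 Dup_th3`),
`coeff N (th4 * th4) = ∑ p ∈ Dup_P N, Dup_c p.1 * Dup_c p.2` (`Dup_coeff_mul Dup_th4 Dup_th4`), `coeff_Dq : coeff n (Dq R f) = n * coeff n f`.
So `8 * coeff n f8 = ∑_((k, l) ∈ antidiagonal n) coeff k (th4^2) * coeff l (th3^2) * (l - k)`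
(`PowerSeries.coeff_mul`; for the second product swap the antidiagonal, or treat both and use `mul_comm`)
`= ∑_(k,l) ∑_(P ∈ Dup_P k) ∑_(Q ∈ Dup_P l) c(P.1) c(P.2) ((Q.1^2 + Q.2^2) - (P.1^2 + P.2^2))`
`= ∑_(x ∈ SS n) Ph x` with `x = ⟨Q.1, Q.2, P.1, P.2⟩` (`Finset.sum_fiberwise_of_maps_to` for
`x ↦ (natAbs (c^2 + d^2), natAbs (a^2 + b^2))`, compare the proof of `Dup_coeff_mul`).  `sg` of QDefs and `Dup_c` have the same
definition (`rfl`).

`f8_even`: `f8 = s1 * t1 * ..` is odd in `q`.  With the first formula it is easier: `8 * coeff n f8` is a sum over `x ∈ SS n`; the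
swap `x ↦ ⟨x.c, x.d, x.a, x.b⟩` is a bijection of `SS n` and for `n` even `ep` is unchanged
(`a + b + c + d` is even, since `nm x = n` is even), while `a² + b² - c² - d²` changes sign: the sum is `0`.

`f8_one`: `8 * coeff 1 f8 = ∑_(x ∈ SS 1) Ph x = 8`: `SS 1` consists of `± 1, ± i, ± j, ± k`, and `Ph = 1` at each
(`(-1)^0 * 1`, `(-1)^(±1) * (-1)`).  Or directly: `f8 = th3^2 th4^2 s1 t1 dbl(..)` with all constant terms `1` except
`s1 = q + ..`: coefficient 1 of the product is `1`.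
-/

namespace Pool.Agent.H7.CY

open PowerSeries Pool.Agent.H85.OT

theorem f8_coeff (n : ℕ) : 8 * PowerSeries.coeff n f8 = ∑ x ∈ SS n, Ph x := by
  sorry

theorem f8_even {n : ℕ} (h : Even n) : PowerSeries.coeff n f8 = 0 := by
  sorry

theorem f8_one : PowerSeries.coeff 1 f8 = 1 := by
  sorry

end Pool.Agent.H7.CY
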