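import Pool.Agent.H7.CY.Q2
import Pool.Agent.H7.CY.Q5
import Pool.Agent.H7.CY.Q6
import Pool.Agent.H7.CY.Q7

/-!
# Row CYQ8: the Hecke relation of `f8`

Put `A n = ∑ x ∈ SS n, Ph x = 8 a_n` (`f8_coeff`), `N = (SS p).card`.  `ep (sm p z) = ep z` (`p` odd) and `Ph (sm p z) = p^2 Ph z`.
For `n` odd: `sum_Ph_mul`, `sum_pairs` with `F = Ph` and `sum_div` give
`A p * A n = 8 A (p n) + (N - 8) p^2 A (n/p)` (last term only if `p ∣ n`), so
`8 (a_p a_n - a_(pn)) = (N - 8) p^2 a_(n/p)` (0 if `p` does not divide `n`).  (*)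
`N - 8 = p t` (`card_SS_mod`).  (*) for `n = p`, `a_1 = 1`: `8 ∣ p^3 t`, so `8 ∣ t` (`p` odd, `Int.gcd`/`IsCoprime`), `t = 8 χ`, and
`a_(pn) = a_p a_n - χ p^3 a_(n/p)`.  For `n` even all coefficients are `0` (`f8_even`; `n / p` is even).
-/

namespace Pool.Agent.H7.CY

open PowerSeries Pool.Agent.H85.OT

theorem f8_hecke {p : ℕ} (hp : p.Prime) (h2 : p ≠ 2) :
    ∃ χ : ℤ, ∀ n : ℕ, 1 ≤ n → PowerSeries.coeff (p * n) f8 =
      PowerSeries.coeff p f8 * PowerSeries.coeff n f8 -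
        χ * (p : ℤ) ^ 3 * (if p ∣ n then PowerSeries.coeff (n / p) f8 else 0) := by
  sorry

end Pool.Agent.H7.CY
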